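import Pool.Agent.Z705.Fin
import Pool.Agent.Y687.MQ.Fin
import Pool.Agent.Q1.PT.JBox

/-!
# The prime twists behave like independent coins, in total variation

`E_D` is the quadratic twist by `D` of the modular curve `X_0(14)` (no complex multiplication). Let
`D_1, …, D_m` be ANY distinct elements of the class of `ExactProportion` and `PrimeTwistsOfEveryTwist`: squarefree, `1`
modulo `4`, a square modulo `7`, all prime factors split completely in `ℚ(√-1, √2, √-7)` or are inert in
`ℚ(√2)` and in `ℚ(√-7)`.  No condition is put on the ranks, on the groups `Ш` or on the `L`-series of the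
`E_(D_i)`.  Twist all of them again and again by the same split primes `p_1, p_2, …` and let `A_j` be the
set of the indices `i` such that `E_(D_i p_1 ⋯ p_j)` has finitely many rational points and `Ш[2] = 0`; for these
curves the rank form of the conjecture holds, order of vanishing and rank are `0`.

THEOREM.  Up to an error `C 2^ω ρ^k` in total variation, uniformly in the horizon `L`, the sets `A_(k+1), …, A_(k+L)`
are `L` independent random sets, each of which contains every `i` with probability `κ = ∏ (1 - 2^-(2i+1)) = 0.419…`,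
independently.  Here `ρ < 1` and `C` depend only on `m`, and `ω` is the number of the prime factors of
`D_1 ⋯ D_m`.  That is, for every function `F` with `|F| ≤ 1` of `L` sets the mean of
`F (A_(k+1), …, A_(k+L))` over the tuples `(p_1, …, p_(k+L))` exists and differs from the mean for the coins by
at most `C 2^ω ρ^k`.  The mean exists in two senses, with the same value: over the box of all the tuples of
different split primes `p_j ≤ X` as `X → ∞`, and as the iterated mean over `p_(k+L)`, …, at last over `p_1` (natural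
densities).

So every limit theorem for independent coins holds for the twists: for `m = 1` the frequency of the good
twists among the first `K` ones is `κ` (laws of large numbers), it has Gaussian fluctuations with the variance
`κ(1-κ)/K`, the longest run of good twists has the length of `log K / log (1/κ)`, and so on, whatever the
arithmetic of the curve `E_D` at the root is; different roots are independent.

Inputs: the criterion for a single discriminant and the nonvanishing (starting results of helper700, helper17,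
helper687 and their teams); the equidistribution of the symbols of a prime (helper283, `Pool/Agent/Q283/TW`) and
of the symbols of the primes of a box (helper155, `Pool/Agent/Q155/KT`); the method of Theorem J for the
completions of several symmetric forms over `𝔽₂` (starting file `Y697`).
New (`Pool/Agent/Q1/PT`): Theorem J with an exponential rate (`EJ`), the joint law of several chains of borderings
with a rate (`JLaw`, `JEff`), siblings as chains with other start matrices (`JGen`), the law of the next step given the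
past (`JTV`), the comparison with coins (`Coin`), the process for primes (`JPath`, `JBox`).
-/

set_option autoImplicit false

open Finset Filter Topology

namespace Pool.Agent.Results.MP_03e5d0_nt.CoinFlipLaw

/-- coefficients of the twist `E_D : y² = x³ + A D x + B D` of `X_0(14)` -/
def A (D : ℤ) : ℤ := 5805 * D ^ 2

/-- coefficients of the twist `E_D : y² = x³ + A D x + B D` of `X_0(14)` -/
def B (D : ℤ) : ℤ := -285714 * D ^ 3

/-- the curve `E_D` over `ℚ` -/
def E (D : ℤ) : WeierstrassCurve ℚ :=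
  { a₁ := 0, a₂ := 0, a₃ := 0, a₄ := (A D : ℚ), a₆ := (B D : ℚ) }

/-- `E_D(ℚ)` is finite and `Ш(E_D/ℚ)` has no element of order two -/
def RankZeroShaTwo (D : ℤ) : Prop :=
  Finite (E D).toAffine.Point ∧ ∀ x : Pool.Agent.TH841.SH.D.Sha (E D), 2 • x = 0 → x = 0

/-- the conclusion of the frozen statement for `y² = x³ + a x + b`, together with the fact that the
order of vanishing and the rank are both `0` -/
def BSDRankZero (a b : ℤ) : Prop :=
  4 * a ^ 3 + 27 * b ^ 2 ≠ 0 ∧
    ∃ F : ℂ → ℂ, Differentiable ℂ F ∧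
      (∀ s : ℂ, (3 : ℝ) / 2 < s.re →
        HasProd
          (fun p : ℕ => open Classical in
            if p.Prime ∧ ¬ ((p : ℤ) ∣ 2 * (-4 * a ^ 3 - 27 * b ^ 2)) then
              (1 - ((p : ℂ) - (Nat.card {q : ZMod p × ZMod p //
                  q.2 ^ 2 = q.1 ^ 3 + (a : ZMod p) * q.1 + (b : ZMod p)} : ℂ))
                  * (p : ℂ) ^ (-s) + (p : ℂ) ^ (1 - 2 * s))⁻¹
            else 1)
          (F s)) ∧
      analyticOrderAt F 1 =
        ((Module.finrank ℤ
          (WeierstrassCurve.Affine.Point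
            (WeierstrassCurve.toAffine
              ({ a₁ := 0, a₂ := 0, a₃ := 0, a₄ := (a : ℚ), a₆ := (b : ℚ) } :
                WeierstrassCurve ℚ))) : ℕ) : ℕ∞) ∧
      Module.finrank ℤ
        (WeierstrassCurve.Affine.Point
          (WeierstrassCurve.toAffine
            ({ a₁ := 0, a₂ := 0, a₃ := 0, a₄ := (a : ℚ), a₆ := (b : ℚ) } :
              WeierstrassCurve ℚ))) = 0

/-- primes inert in `ℚ(√-7)` and in `ℚ(√2)` -/
def Inert (q : ℕ) : Prop :=
  q.Prime ∧ (q % 8 = 3 ∨ q % 8 = 5) ∧ (q % 7 = 3 ∨ q % 7 = 5 ∨ q % 7 = 6)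

/-- primes congruent to `1` modulo `8` that split in `ℚ(√-7)` -/
def Split (p : ℕ) : Prop := p.Prime ∧ p % 8 = 1 ∧ (p % 7 = 1 ∨ p % 7 = 2 ∨ p % 7 = 4)

/-- the family of discriminants: squarefree, `1` modulo `4`, a square modulo `7`, all prime factors
different from `3` and split or inert as above -/
def Family (D : ℤ) : Prop := Squarefree D ∧ D % 4 = 1 ∧ (D % 7 = 1 ∨ D % 7 = 2 ∨ D % 7 = 4) ∧
  ∀ p : ℕ, p.Prime → (p : ℤ) ∣ D → p ≠ 3 ∧ (Split p ∨ Inert p)

/-- the average of `g(p)` over the split primes `p` which do not divide `N` is `c` -/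
def Mean (N : ℕ) (g : ℕ → ℝ) (c : ℝ) : Prop :=
  Tendsto (fun X : ℕ => open Classical in
    (∑ p ∈ (range (X + 1)).filter fun p => Split p ∧ ¬ p ∣ N, g p) /
      (((range (X + 1)).filter fun p => Split p).card : ℝ)) atTop (𝓝 c)

/-- the iterated average of `F [p_1, …, p_K]` over the split primes `p_1 ∤ N`, `p_2 ∤ N p_1`, …,
`p_K ∤ N p_1 ⋯ p_(K-1)` is `c` (first over `p_K`, at last over `p_1`) -/
def IteratedMean : ℕ → ℕ → (List ℕ → ℝ) → ℝ → Prop
  | 0, _, F, c => c = F []
  | K + 1, N, F, c => ∃ g : ℕ → ℝ,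
      (∀ p : ℕ, Split p → ¬ p ∣ N → IteratedMean K (N * p) (fun l => F (p :: l)) (g p)) ∧ Mean N g c

open Classical in
/-- the `K`-tuples of split primes up to `X` -/
noncomputable def tuples (K X : ℕ) : Finset (Fin K → ℕ) :=
  Fintype.piFinset fun _ : Fin K => (range (X + 1)).filter fun p => Split p

/-- the average of `F [p_1, …, p_K]` over the `K`-tuples of different split primes `p_i ≤ X`, `p_i ∤ N`, tends
to `c` as `X → ∞` -/
def BoxMean (K N : ℕ) (F : List ℕ → ℝ) (c : ℝ) : Prop :=
  Tendsto (fun X : ℕ => open Classical in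
    (∑ p ∈ (tuples K X).filter fun p => Function.Injective p ∧ ∀ i, ¬ p i ∣ N, F (List.ofFn p)) /
      ((tuples K X).card : ℝ)) atTop (𝓝 c)

open Classical in
/-- the set of the indices `i` for which the twist by `D_i ∏ l` has rank zero and `Ш[2] = 0` -/
noncomputable def good {m : ℕ} (D : Fin m → ℤ) (l : List ℕ) : Finset (Fin m) :=
  univ.filter fun i => RankZeroShaTwo (D i * (l.prod : ℕ))

/-- the sets `A_(k+1), …, A_K` of the good indices for `p_1 ⋯ p_(k+1)`, …, `p_1 ⋯ p_K`, where `l = [p_1, …, p_K]` -/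
noncomputable def outcomes {m : ℕ} (D : Fin m → ℤ) (k : ℕ) (l : List ℕ) : List (Finset (Fin m)) :=
  ((List.range l.length).drop k).map fun j => good D (l.take (j + 1))

/-- the product `κ = (1 - 1/2)(1 - 1/8)(1 - 1/32)⋯` -/
noncomputable def κ : ℝ := ∏' i : ℕ, (1 - (1 / 2 : ℝ) ^ (2 * i + 1))

/-- the mean of `F [A_1, …, A_L]` for independent random subsets `A_j` of `{1, …, m}` which contain every `i` with
probability `κ`, independently -/
noncomputable def coins (m : ℕ) : ℕ → (List (Finset (Fin m)) → ℝ) → ℝ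
  | 0, F => F []
  | L + 1, F => ∑ A : Finset (Fin m), κ ^ A.card * (1 - κ) ^ (m - A.card) * coins m L fun l => F (A :: l)

theorem rank_iff {D : ℤ} (h : Y687.MQ.AdmD D) : RankZeroShaTwo D ↔ (Y687.MQ.matD D).det ≠ 0 := by
  obtain ⟨hP, hT, -, he⟩ := Y687.MQ.of_admD h
  have h1 := Z704.equivS Z702.f_COC Z702.f_LOT Z702.f_COB Z702.f_TOR Z702.f_LQ Z702.f_LG
    Z702.f_LP Z702.f_LIN Z702.f_TRN Z705.f_SELA Z705.f_SELB (Z705.cnd hP hT)
  have he' : ((Z700.pr (Y687.MQ.SP D) : ℕ) : ℤ) * Y687.DD (Y687.MQ.IP D) = D := he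
  rw [he'] at h1
  have hm : Y687.DD (Y687.MQ.IP D) = Z700.pr (Y687.MQ.IP D) ∨
      Y687.DD (Y687.MQ.IP D) = -(Z700.pr (Y687.MQ.IP D) : ℤ) := by
    refine Int.natAbs_eq_natAbs_iff.1 ?_
    rw [Y687.DD_natAbs, Int.natAbs_natCast]
    rfl
  rw [Y687.MQ.matD_eq, Y687.MQ.matT_iff hP hT, ← Y687.MQ.det_ind hP hT hm, h1]
  unfold RankZeroShaTwo
  refine and_congr Iff.rfl (forall_congr' fun x => ?_)
  rw [two_nsmul]
  rfl

theorem bsd_of {D : ℤ} (hD : D ≠ 0) (h : Y687.WB D) : BSDRankZero (A D) (B D) := by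
  obtain ⟨⟨f, hf, hfp, hf1⟩, hfin⟩ := h
  obtain ⟨F, h1, h2, h3, h4⟩ := Y687.rankBSD hf hfp hf1 hfin
  refine ⟨?_, F, h1, h2, ?_, h4⟩
  · have e : 4 * A D ^ 3 + 27 * B D ^ 2 = (4 * 5805 ^ 3 + 27 * 285714 ^ 2) * D ^ 6 := by
      unfold A B
      ring
    rw [e]
    exact mul_ne_zero (by norm_num) (pow_ne_zero 6 hD)
  · unfold A B
    rw [h3, h4]
    rfl

open Classical in
/-- iterated means are unique -/
theorem unique (K : ℕ) : ∀ (N : ℕ) (F : List ℕ → ℝ) (c c' : ℝ), IteratedMean K N F c →
    IteratedMean K N F c' → c = c' := by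
  induction K with
  | zero =>
    intro N F c c' h h'
    exact h.trans h'.symm
  | succ K ih =>
    rintro N F c c' ⟨g, h1, h2⟩ ⟨g', h1', h2'⟩
    refine tendsto_nhds_unique h2 (h2'.congr fun X => ?_)
    congr 1
    refine Finset.sum_congr rfl fun p hp => ?_
    have hp' := (Finset.mem_filter.1 hp).2
    exact ih _ _ _ _ (h1' p hp'.1 hp'.2) (h1 p hp'.1 hp'.2)

open Classical in
theorem pth_eq {m : ℕ} (l : List ℕ) : ∀ D : Fin m → ℤ,
    Pool.Agent.Q1.PT.pth RankZeroShaTwo D l =
      (List.range (l.length + 1)).map fun j => good D (l.take j) := by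
  induction l with
  | nil =>
    intro D
    have h : Pool.Agent.Q1.PT.gset RankZeroShaTwo D = good D [] := by
      unfold Pool.Agent.Q1.PT.gset good
      refine Finset.filter_congr fun i _ => ?_
      rw [List.prod_nil, Nat.cast_one, mul_one]
    show [Pool.Agent.Q1.PT.gset RankZeroShaTwo D] = _
    rw [h]
    rfl
  | cons p l ih =>
    intro D
    have h2 : List.range ((p :: l).length + 1) = 0 :: (List.range (l.length + 1)).map Nat.succ :=
      List.range_succ_eq_map
    rw [Pool.Agent.Q1.PT.pth_cons, ih, h2, List.map_cons, List.map_map]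
    congr 1
    · unfold Pool.Agent.Q1.PT.gset good
      refine Finset.filter_congr fun i _ => ?_
      rw [List.take_zero, List.prod_nil, Nat.cast_one, mul_one]
    · refine List.map_congr_left fun j _ => ?_
      show good (fun i => D i * (p : ℤ)) (l.take j) = good D ((p :: l).take (j + 1))
      unfold good
      refine Finset.filter_congr fun i _ => ?_
      rw [List.take_succ_cons, List.prod_cons]
      push_cast
      rw [mul_assoc]

theorem drop_pth {m : ℕ} (D : Fin m → ℤ) (k : ℕ) (l : List ℕ) :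
    (Pool.Agent.Q1.PT.pth RankZeroShaTwo D l).drop (k + 1) = outcomes D k l := by
  rw [pth_eq, List.range_succ_eq_map, List.map_cons, List.drop_succ_cons, List.map_map]
  unfold outcomes
  rw [List.map_drop]
  rfl

theorem coins_eq (m L : ℕ) : ∀ F : List (Finset (Fin m)) → ℝ,
    coins m L F = Pool.Agent.Q1.PT.iE L F := by
  induction L with
  | zero =>
    intro F
    rfl
  | succ L ih =>
    intro F
    rw [Pool.Agent.Q1.PT.iE_succ, coins]
    refine Finset.sum_congr rfl fun A _ => ?_
    rw [ih]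
    congr 1
    unfold Pool.Agent.Q1.PT.wt
    rw [Fintype.card_fin]
    rfl

open Classical in
/-- **The theorem.** -/
theorem result (m : ℕ) : ∃ C ρ : ℝ, 0 < ρ ∧ ρ < 1 ∧
    ∀ D : Fin m → ℤ, (∀ i, Family (D i)) → Function.Injective D →
      (∀ (k L : ℕ) (F : List (Finset (Fin m)) → ℝ), (∀ l, |F l| ≤ 1) → ∃ c : ℝ,
        BoxMean (k + L) (∏ i, (D i).natAbs) (fun l => F (outcomes D k l)) c ∧
        (∀ x : ℝ, IteratedMean (k + L) (∏ i, (D i).natAbs) (fun l => F (outcomes D k l)) x ↔ x = c) ∧
        |c - coins m L F| ≤ C * 2 ^ (∏ i, (D i).natAbs).primeFactors.card * ρ ^ k) ∧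
      ∀ M : ℤ, Family M → RankZeroShaTwo M → BSDRankZero (A M) (B M) := by
  obtain ⟨C, ρ, hC, h0, h1, hmain⟩ := Pool.Agent.Q1.PT.coin (Fin m)
  refine ⟨C, ρ, h0, h1, fun D hD hinj => ⟨fun k L F hF => ?_, fun M hM hR =>
    bsd_of hM.1.ne_zero (Y687.MQ.WB_D hM ((rank_iff hM).1 hR))⟩⟩
  have hn0 : ∀ i, (D i).natAbs ≠ 0 := fun i => Int.natAbs_ne_zero.2 (hD i).1.ne_zero
  have hN : ∏ i, (D i).natAbs ≠ 0 := Finset.prod_ne_zero_iff.2 fun i _ => hn0 i
  have hsub : ∀ i, (D i).natAbs.primeFactors ⊆ (∏ i, (D i).natAbs).primeFactors := fun i =>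
    Nat.primeFactors_mono (Finset.dvd_prod_of_mem _ (Finset.mem_univ i)) hN
  have hR : ∀ r ∈ (∏ i, (D i).natAbs).primeFactors, r.Prime ∧ r ≠ 2 ∧ r ≠ 7 := by
    intro r hr
    have h1 := Nat.prime_of_mem_primeFactors hr
    obtain ⟨i, -, hi⟩ := (Nat.Prime.prime h1).exists_mem_finset_dvd (Nat.dvd_of_mem_primeFactors hr)
    have h2 : (r : ℤ) ∣ D i := Int.natCast_dvd.2 hi
    refine ⟨h1, ?_, ?_⟩
    · rintro rfl
      have h3 := (hD i).2.1
      have h4 : (2 : ℤ) ∣ D i := h2
      omega
    · rintro rfl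
      have h3 := (hD i).2.2.1
      have h4 : (7 : ℤ) ∣ D i := h2
      omega
  have hG : ∀ M : ℤ, Pool.Agent.Y687.MQ.AdmD M →
      (RankZeroShaTwo M ↔ (Pool.Agent.Y687.MQ.matD M).det ≠ 0) := fun M hM => rank_iff hM
  have he : (fun l : List ℕ => F (outcomes D k l)) =
      fun l : List ℕ => F ((Pool.Agent.Q1.PT.pth RankZeroShaTwo D l).drop (k + 1)) := by
    funext l
    rw [drop_pth]
  rw [he]
  refine ⟨Pool.Agent.Q1.PT.jp (k + L) (Pool.Agent.Q1.PT.iR D hsub)
    (Pool.Agent.Q1.PT.tR (∏ i, (D i).natAbs).primeFactors D)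
    (fun i => Pool.Agent.Y687.MQ.matD (D i)) fun l => F (l.drop (k + 1)), ?_, ?_, ?_⟩
  · have h := Pool.Agent.Q1.PT.box_jp hG (k + L) (∏ i, (D i).natAbs).primeFactors hR D hsub hD
      fun l => F (l.drop (k + 1))
    unfold BoxMean
    refine h.congr fun X => ?_
    have e1 : (tuples (k + L) X) = Q155.KT.tup (k + L) X := by
      unfold tuples Q155.KT.tup Q155.KT.spl
      rfl
    rw [e1]
    congr 1
    refine Finset.sum_congr (Finset.ext fun p => ?_) fun _ _ => rfl
    rw [Finset.mem_filter, Finset.mem_filter]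
    refine and_congr_right fun hp => and_congr_right fun _ => forall_congr' fun i => ?_
    have hpi : (p i).Prime := ((Q155.KT.mem_tup.1 hp) i).2.1
    rw [Nat.mem_primeFactors]
    exact ⟨fun h h' => h ⟨hpi, h', hN⟩, fun h h' => h h'.2.1⟩
  · have h := Pool.Agent.Q1.PT.iter_jp (m := m) IteratedMean (fun N F c h => h)
      (fun k N F c g h1 h2 => ⟨g, h1, h2⟩) RankZeroShaTwo hG (k + L)
      (∏ i, (D i).natAbs) (∏ i, (D i).natAbs).primeFactors hN rfl hR D hsub hD
      fun l => F (l.drop (k + 1))
    intro x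
    constructor
    · intro hx
      exact unique _ _ _ _ _ hx h
    · rintro rfl
      exact h
  · have h := hmain k L (Pool.Agent.Q1.PT.iR_inj D hsub) (Pool.Agent.Q1.PT.tR_inj hsub hD hinj)
      (fun i => Pool.Agent.Q1.PT.matD_symm (hD i)) F hF
    rw [Fintype.card_coe] at h
    rw [coins_eq]
    exact h

end Pool.Agent.Results.MP_03e5d0_nt.CoinFlipLaw
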