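import Pool.Agent.Q44.BS.Bc

/-!
# Goldfeld's conjecture and the elliptic curves with full rational `2`-torsion and a rational cyclic isogeny
# of degree four: the isogeny Selmer groups of all the quadratic twists, the proportion of rank `0`

Let `E : y² = x³ + a x² + b x`, `a` and `b` integers such that `b` and `a² - 4 b` are squares different from
`0`. These are the elliptic curves all of whose points of order two are rational and which have a rational
cyclic isogeny of degree four (with kernel containing `(0, 0)`), the case left out in the theorems on the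
distribution of the Selmer groups of the quadratic twists. Let `E_D : y² = x³ + a D x² + b D² x`, for *all*
squarefree integers `D`.

For a squarefree `D₀` the local class of `D₀` consists of the squarefree integers `D` of the same sign which
are in the same square class as `D₀` in `ℚ_p` for all the primes `p` which divide `2 b (a² - 4 b)`. Let
`τ` be the product, over the infinite place and these primes, of `1/2` times the order of the image of
`E_{D₀}(ℚ_v)` in `ℚ_v*/ℚ_v*²` under the abscissa, and let `τ'` be the same for the isogenous curve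
`E'_{D₀} : y² = x³ - 2 a D₀ x² + (a² - 4 b) D₀² x`. The results:

* every local class has positive lower density;
* in the local class of `D₀` the number of the `D` with `# Sel = 2 ^ (r + 1)`, for the two isogeny Selmer
  groups, has the proportion `law τ r`, `law τ' r`, where
  `law t r = t ^ r / ((2 ^ r - 1) (2 ^ r - 2) ⋯ (2 ^ r - 2 ^ (r - 1))) · ∏_{i ≥ r + 1} (1 - t / 2 ^ i)`, the sum
  of these numbers being `1`;
* if `τ = τ' = 1` then the proportion of the `D` of the local class such that `E_D` has rank `0` and no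
  element of `2`-power order in its Tate-Shafarevich group is exactly `∏_{i ≥ 1} (1 - 1 / 2 ^ i) = 0.288…`;
* *every* one of these curves has local classes with `τ = τ' = 1`; so a positive proportion of all its
  quadratic twists has rank `0` and trivial `2`-primary part of the Tate-Shafarevich group; explicitly, for
  `E_D : y² = x (x + r² D) (x + s² D)`, `r` and `s` coprime, one can take the `D` divisible by all the primes
  which divide `2 r s (r² - s²)`, positive if `r s` is odd, negative if `r s` is even;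
* for every `T` a positive proportion of the `D` of each local class has `2 ^ rank · # Ш[2] ≥ 2 ^ T`;
* the upper proportion of the `D` with `2 ^ rank · # Ш[2] > 4 ^ R` is at most
  `C ^ (R + 1) / 2 ^ (R (R + 1))`, for all `R`, on all the squarefree integers.
-/

set_option autoImplicit false

open Finset Filter

namespace Pool.Agent.Results.MP_03e5d0_nt.CyclicFourIsogenyTwists

/-- the curve `y² = x³ + A x² + B x` over `ℚ` -/
def E (A B : ℤ) : WeierstrassCurve ℚ :=
  { a₁ := 0, a₂ := (A : ℚ), a₃ := 0, a₄ := (B : ℚ), a₆ := 0 }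

/-- the rank of the group of rational points of `y² = x³ + A x² + B x` -/
noncomputable def rank (A B : ℤ) : ℕ := Module.finrank ℤ (E A B).toAffine.Point

open Classical in
/-- the `2`-torsion of the Tate-Shafarevich group of `y² = x³ + A x² + B x` -/
def ShaTwo (A B : ℤ) : Type := {x : Pool.Agent.W262.SH.Sha (E A B) // x + x = 0}

open Classical in
/-- the rank of `y² = x³ + A x² + B x` is `0` and its Tate-Shafarevich group contains no element of
`2`-power order different from `0` -/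
def Trivial (A B : ℤ) : Prop :=
  rank A B = 0 ∧ ∀ (x : Pool.Agent.W262.SH.Sha (E A B)) (n : ℕ), 2 ^ n • x = 0 → x = 0

/-- `z` is, up to squares, the abscissa of a point over `F` of `y² = x³ + A x² + B x` -/
def Loc (F : Type) [Field F] (A B z : ℤ) : Prop :=
  ∃ x y r : F, x ≠ 0 ∧ y ^ 2 = x ^ 3 + (A : F) * x ^ 2 + (B : F) * x ∧ x = (z : F) * r ^ 2

/-- the Selmer group of the isogeny of degree two onto `y² = x³ + A x² + B x`, a subgroup of `ℚ*/ℚ*²`
which is described by squarefree integers -/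
def Sel (A B : ℤ) : Set ℤ :=
  {z | Squarefree z ∧ (∀ (p : ℕ) [Fact p.Prime], Loc ℚ_[p] A B z) ∧ Loc ℝ A B z}

/-- the Selmer group of the isogeny onto `E_D : y² = x³ + a D x² + b D² x` -/
def SelDual (a b D : ℤ) : Set ℤ := Sel (a * D) (b * D ^ 2)

/-- the Selmer group of the isogeny from `E_D` onto
`E_D' : y² = x³ - 2 a D x² + (a² - 4 b) D² x` -/
def SelPhi (a b D : ℤ) : Set ℤ := Sel (-2 * a * D) ((a ^ 2 - 4 * b) * D ^ 2)

/-- the number `2 ^ rank · # Ш[2]` of the curve `E_D` -/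
noncomputable def size (a b D : ℤ) : ℕ :=
  2 ^ rank (a * D) (b * D ^ 2) * Nat.card (ShaTwo (a * D) (b * D ^ 2))

/-- the curves with full `2`-torsion and a cyclic isogeny of degree four: `b` and `a² - 4 b` are squares
different from `0` -/
def Curves (a b : ℤ) : Prop :=
  (b ≠ 0 ∧ IsSquare b) ∧ (a ^ 2 - 4 * b ≠ 0 ∧ IsSquare (a ^ 2 - 4 * b))

/-- the group of the square classes of a field -/
abbrev SquareClasses (K : Type) [Field K] : Type := Kˣ ⧸ (powMonoidHom 2 : Kˣ →* Kˣ).range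

/-- the square classes of the abscissae of the points over `K` of `y² = x³ + A x² + B x` -/
def image (K : Type) [Field K] (A B : ℤ) : Set (SquareClasses K) :=
  {c | ∃ (x : Kˣ) (y : K), y ^ 2 = (x : K) ^ 3 + (A : K) * (x : K) ^ 2 + (B : K) * (x : K) ∧
    c = QuotientGroup.mk x}

open Classical in
/-- the number of these classes over `ℚ_p` -/
noncomputable def imageCard (A B : ℤ) (p : ℕ) : ℕ :=
  if h : p.Prime then (haveI : Fact p.Prime := ⟨h⟩; Nat.card (image ℚ_[p] A B)) else 1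

/-- the primes which divide `2 b (a² - 4 b)` -/
def bad (a b : ℤ) : Finset ℕ := (2 * (b * (a ^ 2 - 4 * b))).natAbs.primeFactors

/-- the product over the primes of `S` and the infinite place of `1/2` times the number of the classes -/
noncomputable def ratio (S : Finset ℕ) (A B : ℤ) : ℝ :=
  (((∏ p ∈ S, imageCard A B p) * Nat.card (image ℝ A B) : ℕ) : ℝ) / 2 ^ (S.card + 1)

/-- the constant of the curve `E_D` -/
noncomputable def τ (a b D : ℤ) : ℝ := ratio (bad a b) (a * D) (b * D ^ 2)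

/-- the constant of the curve `E_D'` -/
noncomputable def τ' (a b D : ℤ) : ℝ := ratio (bad a b) (-2 * a * D) ((a ^ 2 - 4 * b) * D ^ 2)

/-- `D` and `D₀` have the same sign and the same square classes at the bad primes -/
def Same (a b D₀ D : ℤ) : Prop := 0 < D₀ * D ∧
  ∀ (p : ℕ) [Fact p.Prime], (p : ℤ) ∣ 2 * (b * (a ^ 2 - 4 * b)) → IsSquare ((D₀ * D : ℤ) : ℚ_[p])

open Classical in
/-- the number of the squarefree `D` with `|D| ≤ X` in the local class of `D₀` with the property `P` -/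
noncomputable def count (a b D₀ : ℤ) (P : ℤ → Prop) (X : ℕ) : ℕ :=
  ((Icc (-(X : ℤ)) X).filter fun D => Squarefree D ∧ Same a b D₀ D ∧ P D).card

/-- the `D` with the property `P` have the proportion `c` in the local class of `D₀` -/
def Proportion (a b D₀ : ℤ) (P : ℤ → Prop) (c : ℝ) : Prop :=
  Tendsto (fun X : ℕ => (count a b D₀ P X : ℝ) / (count a b D₀ (fun _ => True) X : ℝ)) atTop (nhds c)

/-- the law of the dimensions -/
noncomputable def law (t : ℝ) (r : ℕ) : ℝ :=
  t ^ r / (∏ i ∈ range r, ((2 : ℝ) ^ r - 2 ^ i)) * ∏' i : ℕ, (1 - t / 2 ^ (r + i + 1))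

/-- the number `(1 - 1/2) (1 - 1/4) (1 - 1/8) ⋯` -/
noncomputable def κ : ℝ := ∏' i : ℕ, (1 - (1 : ℝ) / 2 ^ (i + 1))

/-- the groups are finite, and the bounds for `2 ^ rank · # Ш[2]`; the second bound holds for all the `D`
but one, `D` times a root of the polynomial being not a square -/
def Bounds (a b : ℤ) : Prop := ∀ D : ℤ, Squarefree D →
  (SelDual a b D).Finite ∧ (SelPhi a b D).Finite ∧ Finite (ShaTwo (a * D) (b * D ^ 2)) ∧
    4 * size a b D ≤ (SelDual a b D).ncard * (SelPhi a b D).ncard ∧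
    ∀ x : ℤ, x ^ 2 + a * x + b = 0 → ¬ IsSquare (x * D) → (SelPhi a b D).ncard ≤ 2 * size a b D

/-- the local class of `D₀` has positive lower density -/
def Dense (a b D₀ : ℤ) : Prop := ∃ η : ℝ, 0 < η ∧
  ∀ᶠ X : ℕ in atTop, η * (X : ℝ) ≤ (count a b D₀ (fun _ => True) X : ℝ)

/-- the laws of the two Selmer groups in the local class of `D₀` -/
def Laws (a b D₀ : ℤ) : Prop :=
  (HasSum (law (τ a b D₀)) 1 ∧ HasSum (law (τ' a b D₀)) 1) ∧ ∀ r : ℕ,
    Proportion a b D₀ (fun D => (SelDual a b D).ncard = 2 ^ (r + 1)) (law (τ a b D₀) r) ∧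
    Proportion a b D₀ (fun D => (SelPhi a b D).ncard = 2 ^ (r + 1)) (law (τ' a b D₀) r)

/-- the exact proportion of the trivial groups in the balanced classes -/
def Balanced (a b D₀ : ℤ) : Prop := τ a b D₀ = 1 → τ' a b D₀ = 1 →
  Proportion a b D₀ (fun D => Trivial (a * D) (b * D ^ 2)) κ

/-- large values of `2 ^ rank · # Ш[2]` in the local class of `D₀` -/
def Large (a b D₀ : ℤ) : Prop := ∀ T : ℕ, ∃ η : ℝ, 0 < η ∧
  ∀ᶠ X : ℕ in atTop, η * (X : ℝ) ≤ (count a b D₀ (fun D => 2 ^ T ≤ size a b D) X : ℝ)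

open Classical in
/-- the values of `2 ^ rank · # Ш[2]` on all the squarefree integers -/
def Tails (a b : ℤ) : Prop := ∃ C : ℝ, 0 < C ∧ ∀ R : ℕ, ∀ᶠ X : ℕ in atTop,
  (((Icc (-(X : ℤ)) X).filter fun D => Squarefree D ∧ 4 ^ R < size a b D).card : ℝ) ≤
    C ^ (R + 1) / 2 ^ ((R + 1) * R) * (((Icc (-(X : ℤ)) X).filter fun D => Squarefree D).card : ℝ)

open Classical in
/-- a positive proportion of all the twists is trivial, and there are balanced classes -/
def Positive (a b : ℤ) : Prop :=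
  (∃ D₀ : ℤ, Squarefree D₀ ∧ τ a b D₀ = 1 ∧ τ' a b D₀ = 1) ∧
  ∃ η : ℝ, 0 < η ∧ ∀ᶠ X : ℕ in atTop, η * (X : ℝ) ≤
    (((Icc (-(X : ℤ)) X).filter fun D => Squarefree D ∧ Trivial (a * D) (b * D ^ 2)).card : ℝ)

/-- explicit balanced classes for the curve `y² = x (x + r²) (x + s²)` -/
def Explicit : Prop := ∀ r s D : ℤ, IsCoprime r s → r * s * (r ^ 2 - s ^ 2) ≠ 0 → Squarefree D →
  (∀ p : ℕ, p.Prime → (p : ℤ) ∣ 2 * (r * s * (r ^ 2 - s ^ 2)) → (p : ℤ) ∣ D) →
  (r * s % 2 = 1 → 0 < D) → (r * s % 2 = 0 → D < 0) →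
  Curves (r ^ 2 + s ^ 2) ((r * s) ^ 2) ∧
    τ (r ^ 2 + s ^ 2) ((r * s) ^ 2) D = 1 ∧ τ' (r ^ 2 + s ^ 2) ((r * s) ^ 2) D = 1

/-! ### The proof -/

open scoped Classical

/-- the data -/
def cd {a b : ℤ} (h : Curves a b) : Q44.BS.Cz := ⟨a, b, h.1.1, h.1.2, h.2.1, h.1.2.mul h.2.2⟩

lemma e1 (a D : ℤ) : -2 * a * D = -2 * (a * D) := by ring

lemma e2 (a b D : ℤ) : (a ^ 2 - 4 * b) * D ^ 2 = (a * D) ^ 2 - 4 * (b * D ^ 2) := by ring

lemma nS'_eq {a b : ℤ} (h : Curves a b) (D : ℤ) : (cd h).nS' D = (SelPhi a b D).ncard := by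
  unfold SelPhi
  rw [e1, e2]
  rfl

lemma nS_eq {a b : ℤ} (h : Curves a b) (D : ℤ) : (cd h).nS D = (SelDual a b D).ncard := rfl

lemma rs_eq {a b : ℤ} (h : Curves a b) (D : ℤ) : (cd h).rs D = size a b D := rfl

lemma tau_eq {a b : ℤ} (h : Curves a b) (D : ℤ) : (cd h).tau D = τ a b D := rfl

lemma tau_eq' {a b : ℤ} (h : Curves a b) (D : ℤ) : (cd h).tau' D = τ' a b D := by
  unfold τ'
  rw [e1, e2]
  rfl

lemma count_eq (a b D₀ : ℤ) (P : ℤ → Prop) (X : ℕ)
    {i : DecidablePred fun D => Q44.BN.Same a b D₀ D ∧ P D} : count a b D₀ P X =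
      ((Q44.BN.Sq X).filter fun D => Q44.BN.Same a b D₀ D ∧ P D).card := by
  unfold count
  congr 1
  ext D
  unfold Q44.BN.Sq
  rw [mem_filter, mem_filter, mem_filter, and_assoc]
  rfl

lemma count_true (a b D₀ : ℤ) (X : ℕ) {i : DecidablePred fun D => Q44.BN.Same a b D₀ D} :
    count a b D₀ (fun _ => True) X =
      ((Q44.BN.Sq X).filter fun D => Q44.BN.Same a b D₀ D).card :=
  (count_eq a b D₀ (fun _ => True) X (i := Classical.decPred _)).trans
    (Q44.BN.cardS (fun _ => ⟨fun h => h.1, fun h => ⟨h, trivial⟩⟩) _)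

lemma prop_of {a b : ℤ} (h : Curves a b) {D₀ : ℤ} {P : ℤ → Prop} {c : ℝ}
    (hp : (cd h).Prp D₀ P c) : Proportion a b D₀ P c := by
  refine hp.congr fun X => ?_
  rw [count_eq, count_true]
  rfl

lemma law_eq {t : ℝ} (ht : 0 ≤ t) (r : ℕ) : Q44.BC.lam t r = law t r := Q44.BN.lam_tprod ht r

lemma kappa_eq : Q44.BC.lam 1 0 = κ := by
  rw [Q44.BN.lam_tprod zero_le_one 0]
  unfold κ
  simp

lemma size_pos {a b : ℤ} (h : Curves a b) {D : ℤ} (hD : Squarefree D) : 0 < size a b D :=
  (cd h).rs_pos hD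

/-- the trivial groups -/
lemma trivial_iff (a b D : ℤ) : Trivial (a * D) (b * D ^ 2) ↔ size a b D = 1 := by
  constructor
  · rintro ⟨g1, g2⟩
    have h7 : Nat.card (ShaTwo (a * D) (b * D ^ 2)) = 1 := by
      rw [Nat.card_eq_one_iff_unique]
      constructor
      · constructor
        rintro ⟨x, hx⟩ ⟨y, hy⟩
        apply Subtype.ext
        show x = y
        rw [g2 x 1 (by rw [pow_one, two_nsmul]; exact hx), g2 y 1 (by rw [pow_one, two_nsmul]; exact hy)]
      · exact ⟨⟨0, add_zero 0⟩⟩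
    unfold size
    rw [g1, h7, pow_zero, mul_one]
  · intro h7
    unfold size at h7
    have h8 := Nat.eq_one_of_mul_eq_one_right h7
    have h9 := Nat.eq_one_of_mul_eq_one_left h7
    refine ⟨?_, ?_⟩
    · by_contra hs
      have : 2 ^ 1 ≤ 2 ^ rank (a * D) (b * D ^ 2) :=
        Nat.pow_le_pow_right two_pos (Nat.one_le_iff_ne_zero.2 hs)
      omega
    · have h10 : ∀ x : Pool.Agent.W262.SH.Sha (E (a * D) (b * D ^ 2)), x + x = 0 → x = 0 := by
        intro x hx
        obtain ⟨⟨h11⟩, -⟩ := Nat.card_eq_one_iff_unique.1 h9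
        have h12 := h11 (⟨x, hx⟩ : ShaTwo (a * D) (b * D ^ 2)) ⟨0, add_zero 0⟩
        exact congrArg Subtype.val h12
      intro x n
      induction n with
      | zero =>
        intro hx
        rwa [pow_zero, one_nsmul] at hx
      | succ n ih =>
        intro hx
        apply ih
        apply h10
        rw [← two_nsmul, ← mul_nsmul', ← pow_succ']
        exact hx

lemma bounds {a b : ℤ} (h : Curves a b) : Bounds a b := by
  intro D hD
  obtain ⟨f1, f2, -⟩ := (cd h).pow_nS hD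
  obtain ⟨k1, k2⟩ := (cd h).rs_le hD
  rw [nS'_eq] at k2
  refine ⟨f1, ?_, k1, k2, fun x hx hn => ?_⟩
  · unfold SelPhi
    rw [e1, e2]
    exact f2
  · have k3 := (cd h).nS'_le hD hx hn
    rw [nS'_eq] at k3
    exact k3

lemma dense {a b : ℤ} (h : Curves a b) {D₀ : ℤ} (hD : Squarefree D₀) : Dense a b D₀ := by
  obtain ⟨η, X₀, hη, hX⟩ := (cd h).density hD
  refine ⟨η, hη, ?_⟩
  filter_upwards [eventually_ge_atTop X₀] with X hX0
  rw [count_true]
  exact hX X hX0

lemma laws {a b : ℤ} (h : Curves a b) {D₀ : ℤ} (hD : Squarefree D₀) : Laws a b D₀ := by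
  obtain ⟨⟨t1, t2⟩, l1, l2, -⟩ := (cd h).facts hD
  rw [tau_eq h] at t1 l1
  rw [tau_eq' h] at t2 l2
  have g1 : Q44.BC.lam (τ a b D₀) = law (τ a b D₀) := funext fun r => law_eq t1.le r
  have g2 : Q44.BC.lam (τ' a b D₀) = law (τ' a b D₀) := funext fun r => law_eq t2.le r
  refine ⟨⟨?_, ?_⟩, fun r => ⟨?_, ?_⟩⟩
  · rw [← g1]
    exact Q44.BN.lam_hasSum t1.le
  · rw [← g2]
    exact Q44.BN.lam_hasSum t2.le
  · rw [← g1]
    exact prop_of h (l1 r)
  · rw [← g2]
    have k := l2 r
    simp only [nS'_eq h] at k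
    exact prop_of h k

lemma balanced {a b : ℤ} (h : Curves a b) {D₀ : ℤ} (hD : Squarefree D₀) : Balanced a b D₀ := by
  intro t1 t2
  obtain ⟨-, -, -, l⟩ := (cd h).facts hD
  have k := prop_of h (l (by rw [tau_eq h, t1]) (by rw [tau_eq' h, t2]))
  rw [kappa_eq] at k
  simp only [rs_eq h, ← trivial_iff] at k
  exact k

lemma large {a b : ℤ} (h : Curves a b) {D₀ : ℤ} (hD : Squarefree D₀) : Large a b D₀ := by
  intro T
  obtain ⟨η, hη, hX⟩ := (cd h).large hD T
  refine ⟨η, hη, ?_⟩
  filter_upwards [hX] with X hX0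
  rw [count_eq]
  exact hX0

lemma tails {a b : ℤ} (h : Curves a b) : Tails a b := by
  obtain ⟨C, hC, hR⟩ := (cd h).rank_tail
  refine ⟨C, hC, fun R => ?_⟩
  filter_upwards [hR R] with X hX
  refine le_trans (le_of_eq ?_) (hX.trans (le_of_eq ?_))
  · congr 2
    ext D
    unfold Q44.BN.Sq
    rw [mem_filter, mem_filter, mem_filter, and_assoc]
    rfl
  · congr 3

lemma positive {a b : ℤ} (h : Curves a b) : Positive a b := by
  constructor
  · obtain ⟨D₀, h1, h2, h3⟩ := (cd h).ex_bal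
    rw [tau_eq h] at h2
    rw [tau_eq' h] at h3
    exact ⟨D₀, h1, h2, h3⟩
  · obtain ⟨η, hη, hX⟩ := (cd h).pos_triv
    refine ⟨η, hη, ?_⟩
    filter_upwards [hX] with X hX0
    refine hX0.trans (le_of_eq ?_)
    congr 2
    ext D
    unfold Q44.BN.Sq
    rw [mem_filter, mem_filter, mem_filter, and_assoc, trivial_iff, rs_eq h]

lemma explicit : Explicit := by
  intro r s D hrs h0 hD hp hpos hneg
  have hr : r ≠ 0 := left_ne_zero_of_mul (left_ne_zero_of_mul h0)
  have hs : s ≠ 0 := right_ne_zero_of_mul (left_ne_zero_of_mul h0)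
  have h1 : (r + s) * (r - s) ≠ 0 := by
    intro h
    apply right_ne_zero_of_mul h0
    linear_combination h
  have hodd : r % 2 = 1 ∨ s % 2 = 1 := by
    by_contra h
    obtain ⟨u, v, huv⟩ := hrs
    obtain ⟨r', rfl⟩ : ∃ r', r = 2 * r' := ⟨r / 2, by omega⟩
    obtain ⟨s', rfl⟩ : ∃ s', s = 2 * s' := ⟨s / 2, by omega⟩
    have : 2 * (u * r' + v * s') = 1 := by linear_combination huv
    omega
  have eC : (r ^ 2 + s ^ 2) ^ 2 - 4 * (r * s) ^ 2 = (r ^ 2 - s ^ 2) * (r ^ 2 - s ^ 2) := by ring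
  have hcur : Curves (r ^ 2 + s ^ 2) ((r * s) ^ 2) := by
    refine ⟨⟨pow_ne_zero 2 (mul_ne_zero hr hs), ⟨r * s, by ring⟩⟩, ?_, ?_⟩
    · rw [eC]
      exact mul_ne_zero (right_ne_zero_of_mul h0) (right_ne_zero_of_mul h0)
    · rw [eC]
      exact ⟨_, rfl⟩
  have e : (cd hcur).bad = bad (r ^ 2 + s ^ 2) ((r * s) ^ 2) := rfl
  have hb := Q44.BS.bal (cd hcur).two_bad hr hs (left_ne_zero_of_mul h1) (right_ne_zero_of_mul h1)
    hodd hD (fun p hpb => ⟨(cd hcur).bad_prime hpb, by
      have hpp := (cd hcur).bad_prime hpb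
      refine hp p hpp ?_
      have h2 : (p : ℤ) ∣ 2 * ((r * s) ^ 2 * ((r ^ 2 + s ^ 2) ^ 2 - 4 * (r * s) ^ 2)) :=
        Int.natCast_dvd.2 (Nat.dvd_of_mem_primeFactors hpb)
      have e3 : 2 * ((r * s) ^ 2 * ((r ^ 2 + s ^ 2) ^ 2 - 4 * (r * s) ^ 2)) =
        2 * (r * s * (r ^ 2 - s ^ 2)) ^ 2 := by ring
      rw [e3] at h2
      rcases (Nat.prime_iff_prime_int.1 hpp).dvd_or_dvd h2 with h3 | h3
      · exact h3.mul_right _
      · exact ((Nat.prime_iff_prime_int.1 hpp).dvd_of_dvd_pow h3).mul_left _⟩)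
    (fun h => hpos (by
      have h3 : r % 2 = 1 := by omega
      have h4 : s % 2 = 1 := by omega
      rw [Int.mul_emod, h3, h4]
      norm_num)) (fun h => hneg (by
      rcases Int.emod_two_eq_zero_or_one r with h3 | h3
      · rw [Int.mul_emod, h3, zero_mul]
        norm_num
      · have h4 : s % 2 = 0 := by omega
        rw [Int.mul_emod, h4, mul_zero]
        norm_num))
  have g1 : (r * s * D) ^ 2 = (r * s) ^ 2 * D ^ 2 := by ring
  have g2 : -2 * (r ^ 2 + s ^ 2) * D = -2 * ((r ^ 2 + s ^ 2) * D) := by ring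
  have g3 : ((r ^ 2 + s ^ 2) ^ 2 - 4 * (r * s) ^ 2) * D ^ 2 =
    ((r ^ 2 + s ^ 2) * D) ^ 2 - 4 * ((r * s) ^ 2 * D ^ 2) := by ring
  rw [g1] at hb
  refine ⟨hcur, hb.1, ?_⟩
  unfold τ'
  rw [g2, g3]
  exact hb.2

/-- **The Selmer groups and the ranks of all the quadratic twists.** -/
theorem result : (∀ a b : ℤ, Curves a b → (Bounds a b ∧ Tails a b ∧ Positive a b) ∧
    ∀ D₀ : ℤ, Squarefree D₀ →
      Dense a b D₀ ∧ Laws a b D₀ ∧ Balanced a b D₀ ∧ Large a b D₀) ∧
    (0.288 < κ ∧ κ < 0.290) ∧ Explicit := by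
  refine ⟨fun a b h => ⟨⟨bounds h, tails h, positive h⟩, fun D₀ hD => ⟨dense h hD, laws h hD,
    balanced h hD, large h hD⟩⟩, ?_, explicit⟩
  rw [← kappa_eq]
  exact Q44.BN.lam_one

end Pool.Agent.Results.MP_03e5d0_nt.CyclicFourIsogenyTwists
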