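import Pool.Agent.Q155.NL.Mean
import Pool.Agent.Q155.KG.KF
import Pool.Agent.Q155.KG.Crv

/-!
# The law of the ranks inside the divisors of almost every `D`, for all the twists of `X_0(49)` at once

`E^D : y² = x³ - 2835 D² x - 71442 D³` is the quadratic twist by `D` of the curve `X_0(49)` (complex
multiplication by `ℤ[(1 + √-7)/2]`); the class consists of the squarefree positive integers whose prime
factors are `1` modulo `4`; their root numbers are `+1`, so Goldfeld's conjecture predicts analytic rank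
zero for most of them. For `m` and `D` in the class consider the family of the `2 ^ ω(D)` curves
`E^{m d}`, `d` running over the divisors of `D` (more precisely the twists by the squarefree part of `m d`).

There is ONE set `𝒮` of members of the class, of relative density one in the class (in the natural
order), such that for EVERY `m` of the class and every `ε > 0` the following holds for all large `D ∈ 𝒮`:

* the share of the divisors `d` of `D` for which `E^{m d}(ℚ)` is finite, `Ш(E^{m d}/ℚ)[2] = 0` and the analytic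
  rank of `E^{m d}` is zero differs by less than `ε` from `κ = ∏ (1 - 2 ^ (-2 i - 1)) = 0.4194…`; in
  particular the analytic rank is zero for at least the share `κ - ε` of the divisors;
* the mean over the divisors of the ranks of the curves `E^{m d}` is at most `1.53`;
* for every `t` the share of the divisors `d` for which the rank of `E^{m d}` is larger than `2 t` is at
  most `1 / ((2 - 1) (4 - 1) ⋯ (2 ^ (t + 1) - 1)) + ε`.

(`𝒮` does not depend on `m` and `ε`, but how large `D` must be depends on `m`, `ε` and `t`.)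
Nothing is assumed about the curve `E^m`: its rank may be large, its Tate-Shafarevich group and L-function
arbitrary. The analytic rank is the order of vanishing at `s = 1` of the entire continuation of the Euler
product over the primes which do not divide `42 D`; at the other primes the Euler factor is `1` or does
not vanish at `s = 1`.
-/

set_option autoImplicit false

open Finset Filter

namespace Pool.Agent.Results.MP_03e5d0_nt.RanksOverDivisors

/-- the twist `E^D : y² = x³ + a D² x + b D³` of `X_0(49) : y² = x³ + a x + b`, `a = -2835`, `b = -71442` -/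
def E (D : ℤ) : WeierstrassCurve ℚ :=
  { a₁ := 0, a₂ := 0, a₃ := 0, a₄ := ((-2835 * D ^ 2 : ℤ) : ℚ), a₆ := ((-71442 * D ^ 3 : ℤ) : ℚ) }

open Classical in
/-- the rank of `E^D(ℚ)` -/
noncomputable def rank (D : ℤ) : ℕ := Module.finrank ℤ (E D).toAffine.Point

/-- the number of the affine points of `E^D` modulo `p` -/
noncomputable def points (D : ℤ) (p : ℕ) : ℕ :=
  Nat.card {q : ZMod p × ZMod p //
    q.2 ^ 2 = q.1 ^ 3 + ((-2835 * D ^ 2 : ℤ) : ZMod p) * q.1 + ((-71442 * D ^ 3 : ℤ) : ZMod p)}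

open Classical in
/-- `F` is entire and is, for `Re s > 3/2`, the Euler product of the L-function of `E^D` over the primes
which do not divide `42 D` -/
def IsL (D : ℤ) (F : ℂ → ℂ) : Prop :=
  Differentiable ℂ F ∧ ∀ s : ℂ, (3 : ℝ) / 2 < s.re →
    HasProd (fun p : ℕ => if p.Prime ∧ ¬ ((p : ℤ) ∣ 42 * D) then
      (1 - ((p : ℂ) - (points D p : ℂ)) * (p : ℂ) ^ (-s) + (p : ℂ) ^ (1 - 2 * s))⁻¹ else 1) (F s)

/-- the L-function has an entire continuation, and the analytic rank is `r` -/
def AnalyticRank (D : ℤ) (r : ℕ) : Prop := ∃ F : ℂ → ℂ, IsL D F ∧ analyticOrderAt F 1 = r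

/-- `E^D(ℚ)` is finite and `Ш(E^D/ℚ)` has no element of order two -/
def Trivial2 (D : ℤ) : Prop :=
  Finite (E D).toAffine.Point ∧ ∀ x : Pool.Agent.TH841.SH.D.Sha (E D), 2 • x = 0 → x = 0

/-- the class: squarefree, all prime factors `1` modulo `4` -/
def Class (D : ℕ) : Prop := Squarefree D ∧ ∀ p : ℕ, p.Prime → p ∣ D → p % 4 = 1

/-- the number `κ = (1 - 1/2) (1 - 1/8) (1 - 1/32) ⋯` -/
noncomputable def κ : ℝ := ∏' i : ℕ, (1 - (1 / 2 : ℝ) ^ (2 * i + 1))

/-- the squarefree part of `m D` -/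
def tw (m D : ℕ) : ℕ := m * D / Nat.gcd m D ^ 2

/-- the number of the positive integers up to `X` with the property `T` -/
noncomputable def count (T : ℕ → Prop) (X : ℕ) : ℕ := Nat.card {D : ℕ // (1 ≤ D ∧ D ≤ X) ∧ T D}

/-- the share of the divisors `d` of `D` for which the squarefree part of `m d` has the property `T` -/
noncomputable def share (m D : ℕ) (T : ℕ → Prop) : ℝ :=
  (Nat.card {d : ℕ // d ∈ D.divisors ∧ T (tw m d)} : ℝ) / D.divisors.card

/-- the mean of the ranks of the curves `E^{m d}`, `d ∣ D` -/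
noncomputable def meanRank (m D : ℕ) : ℝ :=
  (∑ d ∈ D.divisors, (rank (tw m d) : ℝ)) / D.divisors.card

/-- the statement for the divisors of `D` and the base curve `E^m` -/
def Law (m D : ℕ) (ε : ℝ) : Prop :=
  |share m D (fun n => Trivial2 n ∧ AnalyticRank n 0) - κ| < ε ∧
  κ - ε < share m D (fun n => AnalyticRank n 0) ∧ meanRank m D ≤ 1.53

/-- the tail for `D`, the base curve `E^m` and `t` -/
def Tail (m D t : ℕ) (ε : ℝ) : Prop :=
  share m D (fun n => 2 * t < rank n) <
    1 / ∏ i ∈ Finset.range (t + 1), ((2 : ℝ) ^ (i + 1) - 1) + ε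

section proof

open Q283.GW
open Q283.GM (rk)
open Q283.XF (nf)
open Q283.J2 (RZ49)
open Pool.Agent.Y19.QT (IsLFun)
open _root_.Q155.KG (cr Ad P1)
open scoped Classical

lemma class_iff (D : ℕ) : Class D ↔ C4 D := by
  unfold Class C4 CF
  constructor
  · rintro ⟨h1, h2⟩
    exact ⟨h1, fun p hp => ⟨Nat.prime_of_mem_primeFactors hp,
      h2 p (Nat.prime_of_mem_primeFactors hp) (Nat.dvd_of_mem_primeFactors hp)⟩⟩
  · rintro ⟨h1, h2⟩
    exact ⟨h1, fun p hp hd => (h2 p (Nat.mem_primeFactors.2 ⟨hp, hd, h1.ne_zero⟩)).2⟩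

lemma isL_iff (D : ℤ) (F : ℂ → ℂ) :
    IsL D F ↔ IsLFun (-2835 * D ^ 2) (-71442 * D ^ 3) F := by
  have key : ∀ p : ℕ, p.Prime → ((p : ℤ) ∣ 42 * D ↔
      (p : ℤ) ∣ 2 * (-4 * (-2835 * D ^ 2) ^ 3 - 27 * (-71442 * D ^ 3) ^ 2)) := by
    intro p hp
    have hp' : Prime (p : ℤ) := Nat.prime_iff_prime_int.1 hp
    constructor
    · intro h1
      have e : 2 * (-4 * (-2835 * D ^ 2) ^ 3 - 27 * (-71442 * D ^ 3) ^ 2) =
          (42 * D) * (-2 ^ 8 * 3 ^ 11 * 7 ^ 2 * D ^ 5) := by ring
      rw [e]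
      exact Dvd.dvd.mul_right h1 _
    · intro h1
      have e : (42 * D) ^ 15 = (2 * (-4 * (-2835 * D ^ 2) ^ 3 - 27 * (-71442 * D ^ 3) ^ 2)) *
          (-(2 ^ 6 * 3 ^ 3 * 7 ^ 12 * D ^ 9)) := by ring
      have h2 : (p : ℤ) ∣ (42 * D) ^ 15 := by
        rw [e]
        exact Dvd.dvd.mul_right h1 _
      exact hp'.dvd_of_dvd_pow h2
  unfold IsL IsLFun
  refine and_congr Iff.rfl (forall_congr' fun s => forall_congr' fun _ => ?_)
  refine Iff.of_eq (congrArg (fun f => HasProd f (F s)) (funext fun p => ?_))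
  by_cases hp : p.Prime
  · by_cases h : (p : ℤ) ∣ 42 * D
    · rw [if_neg (fun h' => h'.2 h), if_neg (fun h' => h'.2 ((key p hp).1 h))]
    · rw [if_pos ⟨hp, h⟩, if_pos ⟨hp, fun h' => h ((key p hp).2 h')⟩]
      rfl
  · rw [if_neg (fun h' => hp h'.1), if_neg (fun h' => hp h'.1)]

lemma triv_iff (D : ℤ) : Trivial2 D ↔ RZ49 D := by
  unfold Trivial2 RZ49
  refine and_congr Iff.rfl (forall_congr' fun x => ?_)
  rw [two_nsmul]
  rfl

lemma triv_cr {D : ℕ} (hD : C4 D) : Trivial2 D ↔ cr D = 0 := by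
  rw [triv_iff, hD.eq]
  exact rz_CF hD.2

lemma ana_cr {D : ℕ} (hD : C4 D) (h : cr D = 0) : AnalyticRank D 0 := by
  obtain ⟨⟨G, hG, hG1⟩, -⟩ := zb_CF hD.2 h
  rw [← hD.eq] at hG
  exact ⟨G, (isL_iff _ G).2 hG, by rw [hG1]; rfl⟩

lemma good_cr {D : ℕ} (hD : C4 D) : (Trivial2 D ∧ AnalyticRank D 0) ↔ cr D = 0 :=
  ⟨fun h => (triv_cr hD).1 h.1, fun h => ⟨(triv_cr hD).2 h, ana_cr hD h⟩⟩

lemma rank_cr {D : ℕ} (hD : C4 D) : rank D ≤ 2 * cr D := by
  refine le_trans (le_of_eq ?_) (_root_.Q155.KG.rank_Q hD)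
  have key : ∀ i j : DecidableEq ℚ,
      (letI := i; Module.finrank ℤ (E D).toAffine.Point) =
        (letI := j; Module.finrank ℤ (E D).toAffine.Point) := by
    intro i j
    cases Subsingleton.elim i j
    rfl
  exact key _ _

lemma count_eq (T : ℕ → Prop) (X : ℕ) : count T X = _root_.Q155.NL.cnt T X := by
  unfold count _root_.Q155.NL.cnt
  rw [Nat.card_congr (Equiv.subtypeEquivRight (q := fun D => D ∈ _root_.Q155.NL.cs T X)
    fun D => _root_.Q155.NL.mem_cs.symm), Nat.card_eq_fintype_card, Fintype.card_coe]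

lemma card_share (P : ℕ → Prop) (i : DecidablePred P) (D : ℕ) :
    Nat.card {d : ℕ // d ∈ D.divisors ∧ P d} = (@Finset.filter ℕ P i D.divisors).card := by
  rw [Nat.card_congr (Equiv.subtypeEquivRight (q := fun d => d ∈ @Finset.filter ℕ P i D.divisors)
    fun d => (@Finset.mem_filter ℕ P i D.divisors d).symm), Nat.card_eq_fintype_card,
    Fintype.card_coe]

lemma share_mono {m D : ℕ} {T T' : ℕ → Prop} (h : ∀ d ∈ D.divisors, T (tw m d) → T' (tw m d)) :
    share m D T ≤ share m D T' := by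
  unfold share
  refine div_le_div_of_nonneg_right ?_ (Nat.cast_nonneg _)
  have hfin : Finite {d : ℕ // d ∈ D.divisors ∧ T' (tw m d)} :=
    (D.divisors.finite_toSet.subset fun d hd => hd.1 : {d : ℕ | d ∈ D.divisors ∧ T' (tw m d)}.Finite)
  exact_mod_cast Nat.card_le_card_of_injective
    (fun d : {d : ℕ // d ∈ D.divisors ∧ T (tw m d)} =>
      (⟨d.1, d.2.1, h d.1 d.2.1 d.2.2⟩ : {d : ℕ // d ∈ D.divisors ∧ T' (tw m d)}))
    fun a b hab => Subtype.ext (congrArg (fun z : {d : ℕ // d ∈ D.divisors ∧ T' (tw m d)} => z.1) hab)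

lemma share_not {m D : ℕ} (hD : D ≠ 0) (T : ℕ → Prop) : share m D (fun n => ¬ T n) = 1 - share m D T := by
  have h0 : (D.divisors.card : ℝ) ≠ 0 := by
    have : 0 < D.divisors.card := Finset.card_pos.2 ⟨1, Nat.one_mem_divisors.2 hD⟩
    exact_mod_cast this.ne'
  have h1 := Finset.card_filter_add_card_filter_not (s := D.divisors) (fun d => T (tw m d))
  unfold share
  rw [card_share (fun d => ¬ T (tw m d)) inferInstance, card_share (fun d => T (tw m d)) inferInstance,
    eq_sub_iff_add_eq, ← add_div, div_eq_one_iff_eq h0, add_comm]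
  exact_mod_cast h1

lemma share_cr {m D : ℕ} {t : ℕ} : share m D (fun n => cr n ≤ t) =
    ((D.divisors.filter fun d => (fun d => cr (_root_.Q155.NL.tw m d)) d ≤ t).card : ℝ) /
      D.divisors.card := by
  unfold share
  rw [card_share (fun d => cr (tw m d) ≤ t) inferInstance]
  rfl

lemma law_of {m D : ℕ} {ε : ℝ} (hm : C4 m) (hD : C4 D) (hε : ε ≤ 0.0001)
    (h : _root_.Q155.NL.LD (fun d => cr (_root_.Q155.NL.tw m d)) ε D) : Law m D ε := by
  have hcl : ∀ d ∈ D.divisors, C4 (tw m d) := fun d hd =>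
    _root_.Q155.NL.tw_class hm (_root_.Q155.NL.c4_dvd hD (Nat.dvd_of_mem_divisors hd))
  have h0 := h.1 0
  rw [_root_.Q155.KG.al_zero] at h0
  have hs : share m D (fun n => Trivial2 n ∧ AnalyticRank n 0) =
      _root_.Q155.NL.dsh (fun d => cr (_root_.Q155.NL.tw m d)) D 0 := by
    unfold _root_.Q155.NL.dsh share
    congr 2
    refine (Nat.card_congr (Equiv.subtypeEquivRight (q := fun d => d ∈ D.divisors ∧
      cr (_root_.Q155.NL.tw m d) = 0) fun d => and_congr_right fun hd => good_cr (hcl d hd))).trans ?_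
    exact card_share _ _ D
  have hs' : |share m D (fun n => Trivial2 n ∧ AnalyticRank n 0) - κ| < ε := by
    rw [hs]
    exact h0
  refine ⟨hs', ?_, ?_⟩
  · have h1 := (abs_lt.1 hs').1
    have h2 : share m D (fun n => Trivial2 n ∧ AnalyticRank n 0) ≤
        share m D (fun n => AnalyticRank n 0) := share_mono fun d _ hd => hd.2
    linarith
  · have h1 := _root_.Q155.NL.mean_div h
    have h2 : meanRank m D ≤ 2 * _root_.Q155.NL.dav (fun d => cr (_root_.Q155.NL.tw m d)) D := by
      unfold meanRank _root_.Q155.NL.dav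
      rw [← mul_div_assoc, Finset.mul_sum]
      refine div_le_div_of_nonneg_right (Finset.sum_le_sum fun d hd => ?_) (Nat.cast_nonneg _)
      exact_mod_cast rank_cr (hcl d hd)
    norm_num at hε h1 ⊢
    linarith

lemma tail_of {m D t : ℕ} {ε : ℝ} (hm : C4 m) (hD : C4 D)
    (h : _root_.Q155.NL.LD (fun d => cr (_root_.Q155.NL.tw m d)) (ε / (t + 2)) D) (hε : 0 < ε) :
    Tail m D t ε := by
  have hcl : ∀ d ∈ D.divisors, C4 (tw m d) := fun d hd =>
    _root_.Q155.NL.tw_class hm (_root_.Q155.NL.c4_dvd hD (Nat.dvd_of_mem_divisors hd))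
  have h1 := _root_.Q155.NL.share_le h t
  have h2 := _root_.Q155.NL.tail t
  have h3 : share m D (fun n => 2 * t < rank n) ≤ share m D (fun n => ¬ cr n ≤ t) :=
    share_mono fun d hd hr hc => by
      have := rank_cr (hcl d hd)
      omega
  rw [share_not hD.1.ne_zero (fun n => cr n ≤ t), share_cr] at h3
  have h4 : ((t : ℝ) + 1) * (ε / (t + 2)) < ε := by
    rw [mul_div_assoc', div_lt_iff₀ (by positivity)]
    nlinarith
  unfold Tail
  linarith

end proof

/-- **The ranks inside the divisors of almost every `D`.** -/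
theorem result :
    (∃ 𝒮 : Set ℕ, (∀ D ∈ 𝒮, Class D) ∧
      Tendsto (fun X : ℕ => (count (fun D => D ∈ 𝒮) X : ℝ) / (count Class X : ℝ)) atTop (nhds 1) ∧
      ∀ m : ℕ, Class m → ∀ ε : ℝ, 0 < ε →
        (∀ᶠ D : ℕ in atTop, D ∈ 𝒮 → Law m D ε) ∧
        ∀ t : ℕ, ∀ᶠ D : ℕ in atTop, D ∈ 𝒮 → Tail m D t ε) ∧
    0.4194 < κ ∧ κ < 0.4195 := by
  classical
  refine ⟨?_, Pool.Agent.Y948.CQ.t_C2.2.2.2.1, Pool.Agent.Y948.CQ.t_C2.2.2.2.2⟩
  obtain ⟨S, h1, h2, h3⟩ := _root_.Q155.NL.dense49
  refine ⟨{D | S D}, fun D hD => (class_iff D).2 (h1 D hD), ?_, fun m hm ε hε => ⟨?_, fun t => ?_⟩⟩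
  · refine h2.congr fun X => ?_
    rw [count_eq, count_eq, show Class = Q283.GW.C4 from funext fun D => propext (class_iff D)]
    rfl
  · have hm' := (class_iff m).1 hm
    filter_upwards [h3 m hm' (min ε 0.0001) (lt_min hε (by norm_num))] with D hD hS
    obtain ⟨k1, k2, k3⟩ := law_of hm' (h1 D hS) (min_le_right _ _) (hD hS)
    have k4 : min ε 0.0001 ≤ ε := min_le_left _ _
    exact ⟨k1.trans_le k4, by linarith, k3⟩
  · have hm' := (class_iff m).1 hm
    filter_upwards [h3 m hm' (ε / (t + 2)) (by positivity)] with D hD hS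
    exact tail_of hm' (h1 D hS) (hD hS) hε

end Pool.Agent.Results.MP_03e5d0_nt.RanksOverDivisors
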