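import Pool.Agent.Q138.PS.TR
import Pool.Agent.Y19.QT.Gold

/-!
# Goldfeld's conjecture: the analytic ranks of the twists by `± ⌊α P(n)⌋`

Let `q ≥ 2`. Outside a set of real numbers of Hausdorff dimension at most `q / (q + 1 / (q 2 ^ (q - 1)))` (that is
`8 / 9` for `q = 2`) every `α > 0` has the following property. Let `E : y² = x³ + a x + b` have `j`-invariant `0` or
`1728`, or be a quadratic twist of `X₀(11)` or `X₀(14)` (or any curve with modular twists), and let `P` run through
ALL integral polynomials of degree `q` with positive leading coefficient and coefficients of size at most `N ^ η`.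
We consider the twists `E_d` by the squarefree `d` among the numbers `± ⌊α P(n)⌋`, `n ≤ N`. The analytic rank is even
for half of them, and odd for half of them, up to `N ^ (1 - η)`, and it is at least `r` for at most
`C N (log N) ^ A e ^ (- c r) + N ^ (1 - η)` of them, for all `r`; in particular it is `O (log log N)` for all but
`O (N / (log N) ^ B)` of them.
-/

set_option autoImplicit false

open Finset Filter Topology MeasureTheory
open Pool.Agent.Y19.QT (IsLFun Fam TwistsModular sqf Nr NrSum GoldfeldLaw)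
open Pool.Agent.Q138.PS

namespace Pool.Agent.Results.MP_03e5d0_nt.TwistsByRealMultiples

/-- the analytic rank of the twist `E_d : y² = x³ + a d² x + b d³` is at least `r` -/
def RankAtLeast (a b : ℤ) (r : ℕ) (d : ℤ) : Prop :=
  ∃ F : ℂ → ℂ, IsLFun (a * d ^ 2) (b * d ^ 3) F ∧ (r : ℕ∞) ≤ analyticOrderAt F 1

/-- the analytic rank of the twist `E_d` is congruent to `e` modulo `2` -/
def RankParity (a b : ℤ) (e : ℕ) (d : ℤ) : Prop :=
  ∃ (F : ℂ → ℂ) (r : ℕ), IsLFun (a * d ^ 2) (b * d ^ 3) F ∧ analyticOrderAt F 1 = (r : ℕ∞) ∧ r % 2 = e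

open Classical in
/-- the number of the pairs of an integer `1 ≤ n ≤ N` and a sign `s` for which `d = s ⌊α P(n)⌋` is squarefree and has
the property `X` -/
noncomputable def count (α : ℝ) (P : Polynomial ℤ) (N : ℕ) (X : ℤ → Prop) : ℕ :=
  ((Icc 1 N ×ˢ ({1, -1} : Finset ℤ)).filter fun x : ℕ × ℤ =>
    Squarefree (x.2 * (⌊α * ((P.eval (x.1 : ℤ) : ℤ) : ℝ)⌋₊ : ℤ)) ∧
      X (x.2 * (⌊α * ((P.eval (x.1 : ℤ) : ℤ) : ℝ)⌋₊ : ℤ))).card

open Classical in
/-- the indicator of the squarefree numbers with a property -/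
noncomputable def iz (X : ℤ → Prop) (d : ℤ) : ℝ := if Squarefree d ∧ X d then 1 else 0

theorem iz_nonneg (X : ℤ → Prop) (d : ℤ) : 0 ≤ iz X d := by
  unfold iz
  split_ifs <;> norm_num

theorem iz_le (X : ℤ → Prop) (d : ℤ) : iz X d ≤ 1 := by
  unfold iz
  split_ifs <;> norm_num

theorem iz_zero (X : ℤ → Prop) : iz X 0 = 0 := by
  unfold iz
  rw [if_neg]
  rintro ⟨h, -⟩
  exact not_squarefree_zero h

theorem count_eq (α : ℝ) (P : Polynomial ℤ) (N : ℕ) (X : ℤ → Prop) : (count α P N X : ℝ) =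
    ∑ n ∈ Icc 1 N, (iz X (⌊α * ((P.eval (n : ℤ) : ℤ) : ℝ)⌋₊ : ℤ) + iz X (-(⌊α * ((P.eval (n : ℤ) : ℤ) : ℝ)⌋₊ : ℤ))) := by
  classical
  unfold count
  rw [card_filter]
  push_cast
  rw [sum_product]
  refine sum_congr rfl fun n _ => ?_
  rw [sum_insert (by decide), sum_singleton]
  unfold iz
  simp only [one_mul, neg_mul]

theorem sum_iz (X : ℤ → Prop) [DecidablePred X] (y : ℕ) :
    ∑ d ∈ Icc (-(y : ℤ)) y, iz X d = (((sqf y).filter X).card : ℝ) := by
  classical
  unfold sqf iz
  rw [filter_filter, card_filter]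
  push_cast
  refine sum_congr rfl fun d _ => ?_
  by_cases h : Squarefree d ∧ X d
  · rw [if_pos h, if_pos ⟨Int.squarefree_natAbs.2 h.1, h.2⟩]
  · rw [if_neg h, if_neg fun h' => h ⟨Int.squarefree_natAbs.1 h'.1, h'.2⟩]

theorem result (q : ℕ) (hq : 2 ≤ q) : ∃ E : Set ℝ,
    dimH E ≤ ENNReal.ofReal ((q : ℝ) / (q + 1 / (q * 2 ^ (q - 1)))) ∧ ∀ α : ℝ, 0 < α → α ∉ E →
    ∀ a b : ℤ, (Fam a b ∨ (4 * a ^ 3 + 27 * b ^ 2 ≠ 0 ∧ TwistsModular a b)) →
    ∃ (η C c : ℝ) (A : ℕ), 0 < η ∧ 0 < c ∧ ∀ᶠ N : ℕ in atTop, ∀ P : Polynomial ℤ, P.natDegree = q →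
      0 < P.leadingCoeff → (∀ j, |((P.coeff j : ℤ) : ℝ)| ≤ (N : ℝ) ^ η) →
      (∀ r : ℕ, (count α P N (RankAtLeast a b r) : ℝ) ≤
        C * N * (Real.log N) ^ A * Real.exp (-(c * r)) + (N : ℝ) ^ (1 - η)) ∧
      ∀ e < 2, |(count α P N (RankParity a b e) : ℝ) - (count α P N (fun _ => True) : ℝ) / 2| ≤ (N : ℝ) ^ (1 - η) := by
  classical
  -- the two samples
  have hsT := fun ab : ℤ × ℤ => sym_transfer q hq (ι := ℕ) (fun r => iz (RankAtLeast ab.1 ab.2 r)) (fun r d => by
    rw [abs_of_nonneg (iz_nonneg _ _)]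
    exact iz_le _ _) (fun r => iz_zero _) 2 (by norm_num) (fun η N => range (⌊(N : ℝ) ^ η⌋₊ + 1)) (fun η hη M N hMN => by
      apply range_mono
      have : (M : ℝ) ≤ N := by exact_mod_cast hMN
      have := Nat.floor_le_floor (Real.rpow_le_rpow (Nat.cast_nonneg _) this hη.le)
      omega) (fun η hη => by
      filter_upwards [eventually_ge_atTop 1, Pool.Agent.Q138.GS.pw 2 0 hη] with N hN h1
      rw [pow_zero, mul_one] at h1
      rw [card_range]
      push_cast
      have hN1 : (1 : ℝ) ≤ N := by exact_mod_cast hN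
      have h2 := Nat.floor_le (show 0 ≤ (N : ℝ) ^ η by positivity)
      have h3 : (1 : ℝ) ≤ (N : ℝ) ^ η := Real.one_le_rpow hN1 hη.le
      have h4 : (N : ℝ) ^ (2 * η) = (N : ℝ) ^ η * (N : ℝ) ^ η := by
        rw [← Real.rpow_add (by linarith)]
        congr 1
        ring
      rw [h4]
      nlinarith)
  have hsP := fun ab : ℤ × ℤ => sym_transfer q hq (ι := ℕ)
    (fun e d => iz (RankParity ab.1 ab.2 e) d - iz (fun _ => True) d / 2) (fun e d => by
    have h1 := iz_nonneg (RankParity ab.1 ab.2 e) d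
    have h2 := iz_le (RankParity ab.1 ab.2 e) d
    have h3 := iz_nonneg (fun _ => True) d
    have h4 := iz_le (fun _ => True) d
    rw [abs_le]
    constructor <;> linarith) (fun e => by rw [iz_zero, iz_zero]; norm_num) 2 (by norm_num) (fun _ N => range (min 2 (N + 1)))
    (fun η hη M N hMN => by
      apply range_mono
      omega) (fun η hη => by
      filter_upwards [Pool.Agent.Q138.GS.pw 2 0 (show 0 < 2 * η by positivity)] with N h1
      rw [pow_zero, mul_one] at h1
      rw [card_range]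
      refine le_trans ?_ h1
      have : min 2 (N + 1) ≤ 2 := min_le_left _ _
      exact_mod_cast this)
  choose ET hET hgT using hsT
  choose EP hEP hgP using hsP
  refine ⟨(⋃ ab, ET ab) ∪ ⋃ ab, EP ab, ?_, fun α hα hαE a b hab => ?_⟩
  · rw [dimH_union, dimH_iUnion, dimH_iUnion]
    exact max_le (iSup_le hET) (iSup_le hEP)
  have hαT : α ∉ ET (a, b) := fun h => hαE (Or.inl (Set.mem_iUnion.2 ⟨(a, b), h⟩))
  have hαP : α ∉ EP (a, b) := fun h => hαE (Or.inr (Set.mem_iUnion.2 ⟨(a, b), h⟩))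
  obtain ⟨η1, hη1, hη1', h1⟩ := hgT (a, b) α hα hαT
  obtain ⟨η2, hη2, hη2', h2⟩ := hgP (a, b) α hα hαP
  -- the law
  have hlaw : GoldfeldLaw a b := by
    rcases hab with h | ⟨h, h'⟩
    · exact Pool.Agent.Y19.QT.goldfeldLaw_fam h
    · exact Pool.Agent.Y19.QT.goldfeldLaw_modular h h'
  obtain ⟨huni, hlaw⟩ := hlaw
  set F : ℤ → ℂ → ℂ := fun d => if h : Squarefree d then (huni d h).choose else 0 with hF
  have hFL : ∀ d : ℤ, Squarefree d → IsLFun (a * d ^ 2) (b * d ^ 3) (F d) := by
    intro d hd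
    have : F d = (huni d hd).choose := by rw [hF]; exact dif_pos hd
    rw [this]
    exact (huni d hd).choose_spec.1
  have hFu : ∀ d : ℤ, Squarefree d → ∀ G : ℂ → ℂ, IsLFun (a * d ^ 2) (b * d ^ 3) G → G = F d := by
    intro d hd G hG
    exact (huni d hd).unique hG (hFL d hd)
  obtain ⟨⟨C1, c1, A1, hc1, hl1⟩, ⟨C2, hl2⟩, -⟩ := hlaw F hFL
  have hge : ∀ (r : ℕ) (d : ℤ), Squarefree d → (RankAtLeast a b r d ↔ (r : ℕ∞) ≤ analyticOrderAt (F d) 1) := by
    intro r d hd
    constructor
    · rintro ⟨G, hG, h⟩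
      rwa [hFu d hd G hG] at h
    · intro h
      exact ⟨F d, hFL d hd, h⟩
  have hpa : ∀ (e : ℕ) (d : ℤ), Squarefree d →
      (RankParity a b e d ↔ ∃ r : ℕ, analyticOrderAt (F d) 1 = (r : ℕ∞) ∧ r % 2 = e) := by
    intro e d hd
    constructor
    · rintro ⟨G, r, hG, h, h'⟩
      rw [hFu d hd G hG] at h
      exact ⟨r, h, h'⟩
    · rintro ⟨r, h, h'⟩
      exact ⟨F d, r, hFL d hd, h, h'⟩
  -- tails
  have htail : ∀ (y r : ℕ), (((sqf y).filter (RankAtLeast a b r)).card : ℝ) =
      ((sqf y).card : ℝ) - ∑ i ∈ range r, (Nr F i y : ℝ) := by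
    intro y r
    induction r with
    | zero =>
      rw [range_zero, sum_empty, sub_zero]
      congr 2
      refine filter_true_of_mem fun d hd => ?_
      have hd' := (Pool.Agent.Y19.QT.mem_sqf.1 hd).2
      rw [hge 0 d hd']
      simp
    | succ r ih =>
      have h3 : ((sqf y).filter (RankAtLeast a b r)).card =
          ((sqf y).filter (RankAtLeast a b (r + 1))).card + Nr F r y := by
        unfold Nr
        rw [← card_union_of_disjoint]
        · congr 1
          ext d
          rw [mem_union, mem_filter, mem_filter, mem_filter]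
          constructor
          · rintro ⟨h3, h4⟩
            have hd' := (Pool.Agent.Y19.QT.mem_sqf.1 h3).2
            rw [hge r d hd'] at h4
            rcases eq_or_lt_of_le h4 with h5 | h5
            · exact Or.inr ⟨h3, h5.symm⟩
            · refine Or.inl ⟨h3, (hge (r + 1) d hd').2 ?_⟩
              push_cast
              exact Order.add_one_le_of_lt h5
          · rintro (⟨h3, h4⟩ | ⟨h3, h4⟩)
            · have hd' := (Pool.Agent.Y19.QT.mem_sqf.1 h3).2
              rw [hge (r + 1) d hd'] at h4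
              refine ⟨h3, (hge r d hd').2 (le_trans ?_ h4)⟩
              exact_mod_cast Nat.le_succ r
            · have hd' := (Pool.Agent.Y19.QT.mem_sqf.1 h3).2
              exact ⟨h3, (hge r d hd').2 h4.ge⟩
        · rw [disjoint_left]
          intro d h3 h4
          rw [mem_filter] at h3 h4
          have hd' := (Pool.Agent.Y19.QT.mem_sqf.1 h3.1).2
          have h5 := (hge (r + 1) d hd').1 h3.2
          rw [h4.2] at h5
          have : r + 1 ≤ r := by exact_mod_cast h5
          omega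
      rw [sum_range_succ]
      have h4 : (((sqf y).filter (RankAtLeast a b r)).card : ℝ) =
          ((sqf y).filter (RankAtLeast a b (r + 1))).card + Nr F r y := by exact_mod_cast h3
      linarith
  -- parity
  have hpar : ∀ (y : ℕ), 3 ≤ y → ∀ e < 2,
      |(((sqf y).filter (RankParity a b e)).card : ℝ) - ((sqf y).card : ℝ) / 2| ≤ C2 * Real.sqrt y := by
    intro y hy e he
    obtain ⟨R0, hR0⟩ := hl2 y hy
    set M : ℕ := ∑ d ∈ sqf y, (analyticOrderAt (F d) 1).toNat with hM
    have h3 := hR0 (max R0 M) (le_max_left _ _) e he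
    have h4 : NrSum F e (max R0 M) y = ((sqf y).filter (RankParity a b e)).card := by
      unfold NrSum Nr
      rw [← card_biUnion]
      · congr 1
        ext d
        rw [mem_biUnion, mem_filter]
        constructor
        · rintro ⟨r, hr, hd⟩
          rw [mem_filter] at hr hd
          have hd' := (Pool.Agent.Y19.QT.mem_sqf.1 hd.1).2
          exact ⟨hd.1, (hpa e d hd').2 ⟨r, hd.2, hr.2⟩⟩
        · rintro ⟨h5, h6⟩
          have hd' := (Pool.Agent.Y19.QT.mem_sqf.1 h5).2
          obtain ⟨r, h7, h8⟩ := (hpa e d hd').1 h6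
          refine ⟨r, ?_, ?_⟩
          · rw [mem_filter, mem_range]
            refine ⟨?_, h8⟩
            have h9 : r ≤ M := by
              have := single_le_sum (f := fun d => (analyticOrderAt (F d) 1).toNat) (fun _ _ => Nat.zero_le _) h5
              simp only [h7] at this
              exact this
            have h10 : M ≤ ⌊max R0 (M : ℝ)⌋₊ := Nat.le_floor (le_max_right _ _)
            omega
          · rw [mem_filter]
            exact ⟨h5, h7⟩
      · intro r _ r' _ hrr
        rw [Function.onFun, disjoint_left]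
        intro d h5 h6
        rw [mem_filter] at h5 h6
        apply hrr
        have := h5.2.symm.trans h6.2
        exact_mod_cast this
    rw [h4] at h3
    exact h3
  have htriv : ∀ (y : ℕ) (X : ℤ → Prop) [DecidablePred X], (((sqf y).filter X).card : ℝ) ≤ 2 * y + 1 := by
    intro y X _
    have h3 : ((sqf y).filter X).card ≤ (Icc (-(y : ℤ)) y).card := by
      refine card_le_card ((filter_subset _ _).trans ?_)
      unfold sqf
      exact filter_subset _ _
    have h4 : (Icc (-(y : ℤ)) y).card = 2 * y + 1 := by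
      rw [Int.card_Icc]
      omega
    rw [h4] at h3
    exact_mod_cast h3
  set η0 : ℝ := min η1 η2 with hη0
  have hη0p : 0 < η0 := by positivity
  have hη01 : η0 ≤ η1 := min_le_left _ _
  have hη02 : η0 ≤ η2 := min_le_right _ _
  have hq0 : (2 : ℝ) ≤ q := by exact_mod_cast hq
  set K1 : ℝ := |C1| * ((q : ℝ) + 1) ^ A1 with hK1
  have hK1p : 0 ≤ K1 := by positivity
  refine ⟨η0 / 2, 5 * K1, c1, A1, by positivity, hc1, ?_⟩
  filter_upwards [h1, h2, eventually_ge_atTop 3, Pool.Agent.Q138.GS.pw (3 / c1) 1 hη1,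
    Pool.Agent.Q138.GS.pw (5 * K1 * Real.exp c1) A1 (show (0 : ℝ) < 2 by norm_num),
    Pool.Agent.Q138.GS.pw (10 + 6 * |C2|) 0 (show 0 < η0 / 2 by positivity)] with N g1 g2 hN3 g4 g5 g6
  intro P hdeg hlead hco
  rw [pow_one] at g4
  rw [pow_zero, mul_one] at g6
  have hN0 : (0 : ℝ) < N := by exact_mod_cast (by omega : 0 < N)
  have hN1 : (1 : ℝ) ≤ N := by exact_mod_cast (by omega : 1 ≤ N)
  have hlog0 : 0 ≤ Real.log N := Real.log_nonneg hN1
  have hcoT : ∀ j, |((P.coeff j : ℤ) : ℝ)| ≤ (N : ℝ) ^ η1 := fun j =>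
    (hco j).trans (Real.rpow_le_rpow_of_exponent_le hN1 (by linarith))
  have hcoP : ∀ j, |((P.coeff j : ℤ) : ℝ)| ≤ (N : ℝ) ^ η2 := fun j =>
    (hco j).trans (Real.rpow_le_rpow_of_exponent_le hN1 (by linarith))
  set Y : ℝ := (N : ℝ) ^ (1 - η0) with hY
  have hY1 : 1 ≤ Y := Real.one_le_rpow hN1 (by linarith)
  have hYf : (10 + 6 * |C2|) * Y ≤ (N : ℝ) ^ (1 - η0 / 2) := by
    have e1 : (N : ℝ) ^ (1 - η0 / 2) = (N : ℝ) ^ (η0 / 2) * Y := by
      rw [hY, ← Real.rpow_add hN0]
      congr 1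
      ring
    rw [e1]
    gcongr
  have hYT : (N : ℝ) ^ (1 - η1) ≤ Y := Real.rpow_le_rpow_of_exponent_le hN1 (by linarith)
  have hYP : (N : ℝ) ^ (1 - η2) ≤ Y := Real.rpow_le_rpow_of_exponent_le hN1 (by linarith)
  have hC2 : 0 ≤ |C2| * Y := by positivity
  constructor
  · -- tails
    have hmain : ∀ r : ℕ, r ≤ ⌊(N : ℝ) ^ η1⌋₊ → (count α P N (RankAtLeast a b r) : ℝ) ≤
        5 * K1 * N * (Real.log N) ^ A1 * Real.exp (-(c1 * r)) + 5 + 2 * Y := by
      intro r hr
      have h3 := g1 r (mem_range.2 (by omega)) P hdeg hlead hcoT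
        (K1 * (Real.log N) ^ A1 * Real.exp (-(c1 * r))) 5 (by positivity) (by norm_num) (fun y hy => by
          rw [sum_iz (RankAtLeast a b r) y, abs_of_nonneg (Nat.cast_nonneg _)]
          rcases lt_or_ge y 3 with h5 | h5
          · have h6 := htriv y (RankAtLeast a b r)
            have h7 : (y : ℝ) ≤ 2 := by exact_mod_cast (by omega : y ≤ 2)
            have h8 : 0 ≤ K1 * (Real.log N) ^ A1 * Real.exp (-(c1 * r)) * y := by positivity
            linarith
          · have h6 := hl1 y r h5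
            rw [← htail y r] at h6
            refine h6.trans ?_
            have hy0 : (0 : ℝ) < y := by exact_mod_cast (by omega : 0 < y)
            have hly : 0 ≤ Real.log y := Real.log_nonneg (by exact_mod_cast (by omega : 1 ≤ y))
            have hlyN : Real.log y ≤ (q + 1) * Real.log N := by
              have := Real.log_le_log hy0 hy
              rw [Real.log_pow] at this
              push_cast at this
              exact this
            calc C1 * y * Real.log y ^ A1 * Real.exp (-(c1 * r)) ≤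
                |C1| * y * ((q + 1) * Real.log N) ^ A1 * Real.exp (-(c1 * r)) := by
                  gcongr
                  exact le_abs_self _
              _ = K1 * (Real.log N) ^ A1 * Real.exp (-(c1 * r)) * y := by
                  rw [hK1, mul_pow]
                  ring
              _ ≤ _ := by linarith)
      rw [← count_eq, abs_of_nonneg (Nat.cast_nonneg _)] at h3
      refine h3.trans ?_
      have : 5 * (K1 * (Real.log N) ^ A1 * Real.exp (-(c1 * r))) * N =
          5 * K1 * N * (Real.log N) ^ A1 * Real.exp (-(c1 * r)) := by ring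
      rw [this]
      linarith
    intro r
    rcases le_or_gt r ⌊(N : ℝ) ^ η1⌋₊ with hr | hr
    · refine (hmain r hr).trans ?_
      linarith
    · have h3 := hmain ⌊(N : ℝ) ^ η1⌋₊ le_rfl
      have h4 : (count α P N (RankAtLeast a b r) : ℝ) ≤ count α P N (RankAtLeast a b ⌊(N : ℝ) ^ η1⌋₊) := by
        rw [Nat.cast_le]
        unfold count
        refine card_le_card fun x hx => ?_
        rw [mem_filter] at hx ⊢
        refine ⟨hx.1, hx.2.1, ?_⟩
        obtain ⟨G, hG, h5⟩ := hx.2.2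
        refine ⟨G, hG, le_trans ?_ h5⟩
        exact_mod_cast hr.le
      have h5 : Real.exp (-(c1 * (⌊(N : ℝ) ^ η1⌋₊ : ℕ))) ≤ Real.exp c1 * ((N : ℝ) ^ 3)⁻¹ := by
        have h6 : (N : ℝ) ^ η1 ≤ ((⌊(N : ℝ) ^ η1⌋₊ : ℕ) : ℝ) + 1 := (Nat.lt_floor_add_one _).le
        have h7 : 3 * Real.log N ≤ c1 * (N : ℝ) ^ η1 := by
          have : c1 * (3 / c1 * Real.log N) ≤ c1 * (N : ℝ) ^ η1 := by gcongr
          have e : c1 * (3 / c1 * Real.log N) = 3 * Real.log N := by field_simp
          linarith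
        have h8 : -(c1 * (⌊(N : ℝ) ^ η1⌋₊ : ℕ)) ≤ c1 + -(3 * Real.log N) := by nlinarith
        refine (Real.exp_le_exp.2 h8).trans (le_of_eq ?_)
        rw [Real.exp_add, Real.exp_neg]
        congr 2
        have : 3 * Real.log (N : ℝ) = Real.log ((N : ℝ) ^ 3) := by
          rw [Real.log_pow]
          norm_num
        rw [this, Real.exp_log (by positivity)]
      have h6 : 5 * K1 * N * (Real.log N) ^ A1 * Real.exp (-(c1 * (⌊(N : ℝ) ^ η1⌋₊ : ℕ))) ≤ 1 := by
        calc 5 * K1 * N * (Real.log N) ^ A1 * Real.exp (-(c1 * (⌊(N : ℝ) ^ η1⌋₊ : ℕ))) ≤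
            5 * K1 * N * (Real.log N) ^ A1 * (Real.exp c1 * ((N : ℝ) ^ 3)⁻¹) := by gcongr
          _ = (5 * K1 * Real.exp c1 * (Real.log N) ^ A1) * (N * ((N : ℝ) ^ 3)⁻¹) := by ring
          _ ≤ (N : ℝ) ^ (2 : ℝ) * (N * ((N : ℝ) ^ 3)⁻¹) := by gcongr
          _ = 1 := by
              have : (N : ℝ) ^ (2 : ℝ) = (N : ℝ) ^ 2 := by
                rw [← Real.rpow_natCast]
                norm_num
              rw [this]
              field_simp
      have h7 : 0 ≤ 5 * K1 * N * (Real.log N) ^ A1 * Real.exp (-(c1 * r)) := by positivity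
      linarith
  · -- parity
    intro e he
    have h3 := g2 e (mem_range.2 (by omega)) P hdeg hlead hcoP (|C2| * (N : ℝ) ^ (-(1 / 4 : ℝ)))
      (|C2| * (N : ℝ) ^ (1 / 4 : ℝ) + 5) (by positivity) (by positivity) (fun y hy => by
        rw [sum_sub_distrib, ← sum_div, sum_iz (RankParity a b e) y, sum_iz (fun _ => True) y,
          filter_true_of_mem (fun _ _ => trivial)]
        rcases lt_or_ge y 3 with h5 | h5
        · have h6 := htriv y (RankParity a b e)
          have h6' := htriv y (fun _ => True)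
          rw [filter_true_of_mem (fun _ _ => trivial)] at h6'
          have h7 : (y : ℝ) ≤ 2 := by exact_mod_cast (by omega : y ≤ 2)
          have h8 : 0 ≤ |C2| * (N : ℝ) ^ (-(1 / 4 : ℝ)) * y := by positivity
          have h9 : 0 ≤ |C2| * (N : ℝ) ^ (1 / 4 : ℝ) := by positivity
          have h10 : (0 : ℝ) ≤ (((sqf y).filter (RankParity a b e)).card : ℝ) := Nat.cast_nonneg _
          have h11 : (0 : ℝ) ≤ ((sqf y).card : ℝ) := Nat.cast_nonneg _
          rw [abs_le]
          constructor <;> linarith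
        · refine (hpar y h5 e he).trans ?_
          have hs : Real.sqrt y ≤ (N : ℝ) ^ (-(1 / 4 : ℝ)) * y + (N : ℝ) ^ (1 / 4 : ℝ) := by
            have e1 : (N : ℝ) ^ (-(1 / 4 : ℝ)) * (N : ℝ) ^ (1 / 4 : ℝ) = 1 := by
              rw [← Real.rpow_add hN0]
              norm_num
            rw [Real.sqrt_le_left (by positivity)]
            have e2 : 0 < (N : ℝ) ^ (-(1 / 4 : ℝ)) := by positivity
            have e3 : 0 < (N : ℝ) ^ (1 / 4 : ℝ) := by positivity
            have e4 : (0 : ℝ) ≤ y := Nat.cast_nonneg _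
            nlinarith [sq_nonneg ((N : ℝ) ^ (-(1 / 4 : ℝ)) * y), sq_nonneg ((N : ℝ) ^ (1 / 4 : ℝ))]
          calc C2 * Real.sqrt y ≤ |C2| * Real.sqrt y := by
                gcongr
                exact le_abs_self _
            _ ≤ |C2| * ((N : ℝ) ^ (-(1 / 4 : ℝ)) * y + (N : ℝ) ^ (1 / 4 : ℝ)) := by gcongr
            _ ≤ _ := by linarith)
    have h4 : ∑ n ∈ Icc 1 N, ((iz (RankParity a b e) (⌊α * ((P.eval (n : ℤ) : ℤ) : ℝ)⌋₊ : ℤ) -
        iz (fun _ => True) (⌊α * ((P.eval (n : ℤ) : ℤ) : ℝ)⌋₊ : ℤ) / 2) +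
        (iz (RankParity a b e) (-(⌊α * ((P.eval (n : ℤ) : ℤ) : ℝ)⌋₊ : ℤ)) -
        iz (fun _ => True) (-(⌊α * ((P.eval (n : ℤ) : ℤ) : ℝ)⌋₊ : ℤ)) / 2)) =
        (count α P N (RankParity a b e) : ℝ) - (count α P N (fun _ => True) : ℝ) / 2 := by
      rw [count_eq, count_eq, sum_div, ← sum_sub_distrib]
      refine sum_congr rfl fun n _ => ?_
      ring
    rw [h4] at h3
    refine h3.trans ?_
    have h5 : (N : ℝ) ^ (-(1 / 4 : ℝ)) * N ≤ Y := by
      calc (N : ℝ) ^ (-(1 / 4 : ℝ)) * N = (N : ℝ) ^ (-(1 / 4 : ℝ)) * (N : ℝ) ^ (1 : ℝ) := by rw [Real.rpow_one]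
        _ = (N : ℝ) ^ (3 / 4 : ℝ) := by
            rw [← Real.rpow_add hN0]
            norm_num
        _ ≤ Y := Real.rpow_le_rpow_of_exponent_le hN1 (by linarith)
    have h6 : (N : ℝ) ^ (1 / 4 : ℝ) ≤ Y := Real.rpow_le_rpow_of_exponent_le hN1 (by linarith)
    have h7 : |C2| * ((N : ℝ) ^ (-(1 / 4 : ℝ)) * N) ≤ |C2| * Y := by gcongr
    have h8 : |C2| * (N : ℝ) ^ (1 / 4 : ℝ) ≤ |C2| * Y := by gcongr
    linarith

end Pool.Agent.Results.MP_03e5d0_nt.TwistsByRealMultiples
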